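import Pool.Agent.Q70.LuD

/-!
# An LU function on the extreme points whose additive extension is not LU

The definitions (`IsMetrizableChoquetSimplex`, `Represents`, `USC`, `LU`, `addExt`, `toE`) are in
`Pool.Agent.Q70.LuA`.
-/

set_option autoImplicit false

namespace Pool.Agent.Results.MP_38292b_an.NotLU

open MeasureTheory Set Filter Topology TopologicalSpace Q70.Lu
open scoped ENNReal

open Classical in
/-- The function on the extreme points: `1` at `(δ_d, ± u_d)`, and `3` at `(δ_q, 0)`. -/
noncomputable def f (e : K.extremePoints ℝ) : ℕ∞ := if (e : Q70.Lu.E).2 = 0 then 3 else 1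

theorem toE_three : toE 3 = ((3 : ℝ) : EReal) := by
  unfold toE
  norm_num
  rfl

theorem toE_one : toE 1 = ((1 : ℝ) : EReal) := by
  unfold toE
  norm_num

theorem toE_mono {a b : ℕ∞} (h : a ≤ b) : toE a ≤ toE b := by
  unfold toE
  exact_mod_cast h

theorem f_LU : LU fun e => toE (f e) := by
  classical
  refine ⟨fun _ e => toE (f e), fun _ t => ?_, fun e => monotone_const, fun e =>
    tendsto_const_nhds⟩
  by_cases h1 : t ≤ 1
  · have : {y | toE (f y) < (t : EReal)} = ∅ := by
      ext y
      simp only [mem_empty_iff_false, iff_false, Set.mem_ofPred_eq, not_lt]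
      have h2 : toE 1 ≤ toE (f y) := toE_mono (by unfold f; split_ifs <;> norm_num)
      rw [toE_one] at h2
      exact le_trans (EReal.coe_le_coe_iff.2 h1) h2
    rw [this]
    exact isOpen_empty
  · by_cases h3 : t ≤ 3
    · have : {y : K.extremePoints ℝ | toE (f y) < (t : EReal)} =
          {y : K.extremePoints ℝ | (y : Q70.Lu.E).2 = 0}ᶜ := by
        ext y
        simp only [Set.mem_ofPred_eq, mem_compl_iff]
        constructor
        · intro h4 h5
          have h6 : f y = 3 := by unfold f; rw [if_pos h5]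
          rw [h6, toE_three, EReal.coe_lt_coe_iff] at h4
          linarith
        · intro h5
          have h6 : f y = 1 := by unfold f; rw [if_neg h5]
          rw [h6, toE_one, EReal.coe_lt_coe_iff]
          linarith
      rw [this]
      have h7 : IsClosed {y : K.extremePoints ℝ | (y : Q70.Lu.E).2 = 0} :=
        isClosed_eq (continuous_snd.comp continuous_subtype_val) continuous_const
      exact h7.isOpen_compl
    · have : {y | toE (f y) < (t : EReal)} = univ := by
        ext y
        simp only [Set.mem_ofPred_eq, mem_univ, iff_true]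
        have h2 : toE (f y) ≤ toE 3 := toE_mono (by unfold f; split_ifs <;> norm_num)
        rw [toE_three] at h2
        exact lt_of_le_of_lt h2 (EReal.coe_lt_coe_iff.2 (by linarith))
      rw [this]
      exact isOpen_univ

/-- a finite convex combination with positive coefficients equal to an extreme point is trivial -/
theorem comb_extreme {x : Q70.Lu.E} (hx : x ∈ K.extremePoints ℝ)
    (t : Finset (K.extremePoints ℝ)) (p : K.extremePoints ℝ → ℝ) (hp : ∀ e ∈ t, 0 < p e)
    (h1 : ∑ e ∈ t, p e = 1) (h2 : ∑ e ∈ t, p e • (e : Q70.Lu.E) = x) :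
    ∀ e ∈ t, (e : Q70.Lu.E) = x := by
  classical
  intro e he
  by_cases hs : t = {e}
  · rw [hs, Finset.sum_singleton] at h1 h2
    rw [h1, one_smul] at h2
    exact h2
  · have h3 : p e + ∑ i ∈ t.erase e, p i = 1 := by rw [Finset.add_sum_erase t p he, h1]
    have hne : (t.erase e).Nonempty := by
      rw [Finset.nonempty_iff_ne_empty]
      intro h4
      exact hs ((Finset.erase_eq_empty_iff t e).1 h4 |>.resolve_left (Finset.ne_empty_of_mem he))
    have hpos : 0 < ∑ i ∈ t.erase e, p i :=
      Finset.sum_pos (fun i hi => hp i (Finset.mem_of_mem_erase hi)) hne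
    set s := ∑ i ∈ t.erase e, p i with hs'
    have hy : ∑ i ∈ t.erase e, (s⁻¹ * p i) • (i : Q70.Lu.E) ∈ K := by
      refine K_convex.sum_mem (fun i hi => ?_) ?_ (fun i _ => i.2.1)
      · exact mul_nonneg (inv_nonneg.2 hpos.le) (hp i (Finset.mem_of_mem_erase hi)).le
      · rw [← Finset.mul_sum, ← hs', inv_mul_cancel₀ hpos.ne']
    have h5 := (mem_extremePoints.1 hx).2 e e.2.1 _ hy
      ⟨p e, s, hp e he, hpos, h3, ?_⟩
    · exact h5.1
    · rw [Finset.smul_sum]
      have h6 : ∀ i ∈ t.erase e, s • ((s⁻¹ * p i) • (i : Q70.Lu.E)) = p i • (i : Q70.Lu.E) := by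
        intro i _
        rw [smul_smul, mul_inv_cancel_left₀ hpos.ne']
      rw [Finset.sum_congr rfl h6, Finset.add_sum_erase t (fun i => p i • (i : Q70.Lu.E)) he, h2]

theorem F_three {q : Q} (hq : q ∉ D) : 3 ≤ addExt K f ⟨base q, base_mem q⟩ := by
  classical
  unfold addExt
  refine le_iInf fun t => le_iInf fun ht => ?_
  obtain ⟨p, hp, h1, h2⟩ := ht
  have hex := base_extreme hq
  have hall := comb_extreme hex t p hp h1 h2
  have hne : t.Nonempty := by
    rw [Finset.nonempty_iff_ne_empty]
    rintro rfl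
    simp at h1
  obtain ⟨e, he⟩ := hne
  have h3 : f e = 3 := by
    unfold f
    rw [if_pos]
    rw [hall e he]
    rfl
  calc (3 : ℕ∞) = f e := h3.symm
    _ ≤ ∑ e ∈ t, f e := Finset.single_le_sum (fun i _ => zero_le (a := f i)) he

theorem F_two (d : D) : addExt K f ⟨base d, base_mem d⟩ ≤ 2 := by
  classical
  unfold addExt
  set e₁ : K.extremePoints ℝ := ⟨up d 1, up_extreme d (by simp)⟩ with he₁
  set e₂ : K.extremePoints ℝ := ⟨up d (-1), up_extreme d (by simp)⟩ with he₂
  have hne : e₁ ≠ e₂ := by
    intro h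
    have h1 := congrArg (fun e : K.extremePoints ℝ => (e : Q70.Lu.E).2 d) h
    simp only [he₁, he₂, up_snd_same] at h1
    norm_num at h1
  have hf : ∀ s : ℝ, s ≠ 0 → (up d s).2 ≠ 0 := by
    intro s hs h
    have := congrFun h d
    rw [up_snd_same] at this
    exact hs this
  refine (iInf₂_le ({e₁, e₂} : Finset (K.extremePoints ℝ)) ?_).trans ?_
  · refine ⟨fun _ => 1 / 2, fun e _ => by norm_num, ?_, ?_⟩
    · rw [Finset.sum_pair hne]; norm_num
    · rw [Finset.sum_pair hne]
      refine Prod.ext (funext fun C => ?_) (funext fun d' => ?_)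
      · simp only [he₁, he₂, Prod.fst_add, Prod.smul_fst, Pi.add_apply, Pi.smul_apply,
          smul_eq_mul, up_fst, base]
        ring
      · simp only [he₁, he₂, Prod.snd_add, Prod.smul_snd, Pi.add_apply, Pi.smul_apply,
          smul_eq_mul, base, Pi.zero_apply]
        by_cases h : d' = d
        · subst h
          rw [up_snd_same, up_snd_same]; ring
        · rw [up_snd_ne h, up_snd_ne h]; ring
  · rw [Finset.sum_pair hne]
    have h1 : f e₁ = 1 := by
      unfold f; rw [if_neg (hf 1 (by norm_num))]
    have h2 : f e₂ = 1 := by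
      unfold f; rw [if_neg (hf (-1) (by norm_num))]
    rw [h1, h2]
    norm_num

theorem F_not_LU : ¬ LU fun x => toE (addExt K f x) := by
  rintro ⟨h, husc, hmono, hlim⟩
  let b : Q → K := fun q => ⟨base q, base_mem q⟩
  have hb : Continuous b := continuous_base.subtype_mk _
  set A : ℕ → Set Q := fun n => {q | (((5 / 2 : ℝ)) : EReal) ≤ h n (b q)} with hA
  have hAc : ∀ n, IsClosed (A n) := by
    intro n
    have h1 : A n = (b ⁻¹' {y | h n y < ((5 / 2 : ℝ) : EReal)})ᶜ := by
      ext q
      simp only [hA, Set.mem_ofPred_eq, mem_compl_iff, mem_preimage, not_lt]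
    rw [h1]
    exact ((husc n (5 / 2)).preimage hb).isClosed_compl
  -- the sets `A n` miss `D`
  have hAD : ∀ n, ∀ q ∈ A n, q ∉ D := by
    intro n q hq hqD
    have h1 : h n (b q) ≤ toE (addExt K f (b q)) := (hmono (b q)).ge_of_tendsto (hlim (b q)) n
    have h2 : toE (addExt K f (b q)) ≤ toE 2 := toE_mono (F_two ⟨q, hqD⟩)
    have h3 : toE 2 = ((2 : ℝ) : EReal) := by
      unfold toE; norm_num; rfl
    have h4 : ((5 / 2 : ℝ) : EReal) ≤ ((2 : ℝ) : EReal) := by
      rw [← h3]; exact (hq.trans h1).trans h2
    rw [EReal.coe_le_coe_iff] at h4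
    norm_num at h4
  let H : ℕ ⊕ D → Set Q := Sum.elim A (fun d : D => ({(d : Q)} : Set Q))
  have hcov : (⋃ i : ℕ ⊕ D, H i) = univ := by
    rw [eq_univ_iff_forall]
    intro q
    by_cases hq : q ∈ D
    · exact mem_iUnion.2 ⟨Sum.inr ⟨q, hq⟩, rfl⟩
    · have h1 : ((5 / 2 : ℝ) : EReal) < toE (addExt K f (b q)) := by
        refine lt_of_lt_of_le ?_ (toE_mono (F_three hq))
        rw [toE_three, EReal.coe_lt_coe_iff]
        norm_num
      obtain ⟨n, hn⟩ := ((hlim (b q)).eventually (lt_mem_nhds h1)).exists
      exact mem_iUnion.2 ⟨Sum.inl n, hn.le⟩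
  obtain ⟨i, hi⟩ := nonempty_interior_of_iUnion_of_closed (f := H) (by
      rintro (n | d)
      · exact hAc n
      · exact isClosed_singleton) hcov
  rcases i with n | d
  · obtain ⟨q, hq⟩ := D_dense.inter_open_nonempty _ isOpen_interior hi
    exact hAD n q (interior_subset hq.1) hq.2
  · obtain ⟨q, hq⟩ := hi
    change q ∈ interior ({(d : Q)} : Set Q) at hq
    have h1 : interior ({(d : Q)} : Set Q) = {(d : Q)} := by
      refine subset_antisymm interior_subset ?_
      have h2 : q = d := mem_singleton_iff.1 (interior_subset (s := {(d : Q)}) hq)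
      rw [← h2]
      rw [← h2] at hq
      exact singleton_subset_iff.2 hq
    exact not_open_singleton (d : Q) (h1 ▸ isOpen_interior)

/-- **Q1 is false**: there are a metrizable Choquet simplex `K` in a locally convex Hausdorff
space and an LU function `f : ex K → ℕ ∪ {∞}` (in fact with values in `{1, 3}`) whose extension by
the additive rule is not of class LU on `K`. -/
theorem result : ∃ (E : Type) (_ : AddCommGroup E) (_ : Module ℝ E) (_ : TopologicalSpace E)
    (_ : IsTopologicalAddGroup E) (_ : ContinuousSMul ℝ E) (_ : LocallyConvexSpace ℝ E)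
    (_ : T2Space E) (_ : MeasurableSpace E) (_ : BorelSpace E) (K : Set E)
    (f : K.extremePoints ℝ → ℕ∞),
    IsMetrizableChoquetSimplex K ∧ (∀ e, 1 ≤ f e) ∧ LU (fun e => toE (f e)) ∧
      ¬ LU (fun x => toE (addExt K f x)) := by
  refine ⟨Q70.Lu.E, inferInstance, inferInstance, inferInstance, inferInstance, inferInstance,
    inferInstance, inferInstance, inferInstance, inferInstance, Q70.Lu.K, f, simplex, ?_, f_LU,
    F_not_LU⟩
  intro e
  unfold f
  split_ifs <;> norm_num

end Pool.Agent.Results.MP_38292b_an.NotLU
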